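import Pool.Agent.Lib.MP_e2a686_co.Parallelogram

open Set

namespace Pool.Agent.Lib.MP_e2a686_co

def cell (c : Z2) : Set ℂ :=
  {p : ℂ | (c.1 : ℝ) ≤ p.re ∧ p.re ≤ (c.1 : ℝ) + 1 ∧ (c.2 : ℝ) ≤ p.im ∧ p.im ≤ (c.2 : ℝ) + 1}

noncomputable def emb (c : Z2) : ℂ := ⟨c.1, c.2⟩

lemma mem_shift (S : Finset Z2) (a : Z2) (x : ℂ) :
    x ∈ IsometryEquiv.addRight (emb a) '' (⋃ c ∈ S, cell c) ↔ ∃ c ∈ S, x ∈ cell (a + c) := by
  rw [← IsometryEquiv.preimage_symm]
  simp only [mem_preimage, mem_iUnion, exists_prop]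
  refine exists_congr fun c => and_congr_right fun _ => ?_
  simp only [IsometryEquiv.addRight_symm, IsometryEquiv.addRight_apply, cell, emb, mem_ofPred_eq,
    Complex.add_re, Complex.neg_re, Complex.add_im, Complex.neg_im, Prod.fst_add, Prod.snd_add]
  push_cast
  constructor <;> rintro ⟨_, _, _, _⟩ <;> refine ⟨?_, ?_, ?_, ?_⟩ <;> linarith

lemma mem_refl (S : Finset Z2) (b : Z2) (x : ℂ) :
    x ∈ IsometryEquiv.subLeft (emb (b + (1, 1))) '' (⋃ c ∈ S, cell c) ↔
      ∃ c ∈ S, x ∈ cell (b - c) := by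
  simp only [mem_image, mem_iUnion, exists_prop, IsometryEquiv.subLeft_apply]
  constructor
  · rintro ⟨y, ⟨c, hc, h⟩, rfl⟩
    refine ⟨c, hc, ?_⟩
    simp only [cell, emb, mem_ofPred_eq, Complex.sub_re, Complex.sub_im, Prod.fst_add, Prod.snd_add,
      Prod.fst_sub, Prod.snd_sub] at h ⊢
    push_cast
    obtain ⟨_, _, _, _⟩ := h
    refine ⟨?_, ?_, ?_, ?_⟩ <;> linarith
  · rintro ⟨c, hc, h⟩
    refine ⟨emb (b + (1, 1)) - x, ⟨c, hc, ?_⟩, by ring⟩
    simp only [cell, emb, mem_ofPred_eq, Complex.sub_re, Complex.sub_im, Prod.fst_add, Prod.snd_add,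
      Prod.fst_sub, Prod.snd_sub] at h ⊢
    push_cast at h ⊢
    obtain ⟨_, _, _, _⟩ := h
    refine ⟨?_, ?_, ?_, ?_⟩ <;> linarith

lemma cell_unique {x : ℂ} (h1 : Irrational x.re) (h2 : Irrational x.im) {c d : Z2}
    (hc : x ∈ cell c) (hd : x ∈ cell d) : c = d := by
  have key : ∀ {r : ℝ} {m : ℤ}, Irrational r → (m : ℝ) ≤ r → r ≤ m + 1 → ⌊r⌋ = m :=
    fun {r m} h a b => Int.floor_eq_iff.2 ⟨a, lt_of_le_of_ne b fun e =>
      h.ne_int (m + 1) (by push_cast; exact e)⟩
  exact Prod.ext ((key h1 hc.1 hc.2.1).symm.trans (key h1 hd.1 hd.2.1))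
    ((key h2 hc.2.2.1 hc.2.2.2).symm.trans (key h2 hd.2.2.1 hd.2.2.2))

lemma exists_irr {U : Set ℂ} (hU : IsOpen U) (hn : U.Nonempty) :
    ∃ x ∈ U, Irrational x.re ∧ Irrational x.im := by
  have hd : Dense (Complex.equivRealProdCLM ⁻¹' ({r | Irrational r} ×ˢ {r | Irrational r})) :=
    (dense_irrational.prod dense_irrational).preimage
      Complex.equivRealProdCLM.toHomeomorph.isOpenMap
  obtain ⟨x, h1, h2⟩ := hd.inter_open_nonempty U hU hn
  exact ⟨x, h1, h2.1, h2.2⟩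

theorem geom {S : Finset Z2} {A B : Z2 → ℕ}
    (h : ∀ z, ∑ t ∈ S, A (z - t) + ∑ t ∈ S, B (z + t) = 1) :
    ∃ 𝒯 : Set (Set ℂ), (∀ t ∈ 𝒯, ∃ g : ℂ ≃ᵢ ℂ, t = g '' (⋃ c ∈ S, cell c)) ∧
      ⋃₀ 𝒯 = Set.univ ∧ 𝒯.Pairwise (fun s t => Disjoint (interior s) (interior t)) := by
  classical
  refine ⟨{t | (∃ a, A a ≠ 0 ∧ t = IsometryEquiv.addRight (emb a) '' (⋃ c ∈ S, cell c)) ∨
    ∃ b, B b ≠ 0 ∧ t = IsometryEquiv.subLeft (emb (b + (1, 1))) '' (⋃ c ∈ S, cell c)}, ?_, ?_, ?_⟩
  · rintro t (⟨a, -, rfl⟩ | ⟨b, -, rfl⟩) <;> exact ⟨_, rfl⟩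
  · refine eq_univ_of_forall fun x => ?_
    have hx : x ∈ cell (⌊x.re⌋, ⌊x.im⌋) := ⟨Int.floor_le _, (Int.lt_floor_add_one _).le,
      Int.floor_le _, (Int.lt_floor_add_one _).le⟩
    generalize (⌊x.re⌋, ⌊x.im⌋) = z at hx
    have := h z
    by_cases h1 : ∑ t ∈ S, A (z - t) = 0
    · obtain ⟨t, ht, e⟩ := Finset.exists_ne_zero_of_sum_ne_zero
        (show ∑ t ∈ S, B (z + t) ≠ 0 by omega)
      exact ⟨_, Or.inr ⟨_, e, rfl⟩, (mem_refl ..).2 ⟨t, ht, by simpa using hx⟩⟩
    · obtain ⟨t, ht, e⟩ := Finset.exists_ne_zero_of_sum_ne_zero h1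
      exact ⟨_, Or.inl ⟨_, e, rfl⟩, (mem_shift ..).2 ⟨t, ht, by simpa using hx⟩⟩
  · have two : ∀ {f : Z2 → ℕ} {c d : Z2}, c ∈ S → d ∈ S → f c ≠ 0 → f d ≠ 0 →
        ∑ t ∈ S, f t ≤ 1 → c = d := fun {f c d} hc hd h1 h2 h3 => by
      by_contra hne
      have := Finset.sum_le_sum_of_subset (f := f) (s := {c, d}) (t := S) (by
        intro y hy; rcases Finset.mem_insert.1 hy with rfl | hy
        · exact hc
        · rwa [Finset.mem_singleton.1 hy])
      rw [Finset.sum_pair hne] at this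
      omega
    have mix : ∀ {a b c d : Z2}, c ∈ S → d ∈ S → A a ≠ 0 → B b ≠ 0 → a + c ≠ b - d :=
      fun {a b c d} hc hd h1 h2 e => by
        have := h (a + c)
        have f1 := Finset.single_le_sum (f := fun t => A (a + c - t)) (fun _ _ => Nat.zero_le _) hc
        have f2 := Finset.single_le_sum (f := fun t => B (a + c + t)) (fun _ _ => Nat.zero_le _) hd
        simp only [add_sub_cancel_right] at f1
        rw [show a + c + d = b by rw [e]; ring] at f2
        omega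
    intro s hs t ht hne
    rw [Set.disjoint_iff_inter_eq_empty]
    by_contra hn
    obtain ⟨x, ⟨x1, x2⟩, i1, i2⟩ := exists_irr (isOpen_interior.inter isOpen_interior)
      (nonempty_iff_ne_empty.2 hn)
    replace x1 := interior_subset x1
    replace x2 := interior_subset x2
    rcases hs with ⟨a, ha, rfl⟩ | ⟨a, ha, rfl⟩ <;> rcases ht with ⟨b, hb, rfl⟩ | ⟨b, hb, rfl⟩ <;>
      simp only [mem_shift, mem_refl] at x1 x2 <;> obtain ⟨c, hc, x1⟩ := x1 <;>
      obtain ⟨d, hd, x2⟩ := x2 <;> have e := cell_unique i1 i2 x1 x2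
    · have := two (f := fun t => A (a + c - t)) hc hd (by simpa) (by simpa [e])
        (by have := h (a + c); omega)
      subst this
      exact hne (by rw [add_right_cancel e])
    · exact mix hc hd ha hb e
    · exact mix hd hc hb ha e.symm
    · have := two (f := fun t => B (a - c + t)) hc hd (by simpa) (by simpa [e])
        (by have := h (a - c); omega)
      subst this
      exact hne (by rw [sub_left_inj.1 e])

theorem main (S : Finset Z2) (hS : S.card = 5) {a b c d : Z2} (ha : a ∈ S) (hb : b ∈ S)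
    (hc : c ∈ S) (hd : d ∈ S) (ab : a ≠ b) (ac : a ≠ c) (ad : a ≠ d) (bd : b ≠ d)
    (e : a + c = b + d) {x y z : Z2} (hx : x ∈ S) (hy : y ∈ S) (hz : z ∈ S)
    (nc : det (y - x) (z - x) ≠ 0) :
    ∃ 𝒯 : Set (Set ℂ), (∀ t ∈ 𝒯, ∃ g : ℂ ≃ᵢ ℂ, t = g '' (⋃ c ∈ S, cell c)) ∧
      ⋃₀ 𝒯 = Set.univ ∧ 𝒯.Pairwise (fun s t => Disjoint (interior s) (interior t)) := by
  have bc : b ≠ c := fun h => ad (by rw [h, add_comm] at e; exact add_left_cancel e)
  have dc : d ≠ c := fun h => ab (by rw [h] at e; exact add_right_cancel e)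
  obtain ⟨w, hw, hw'⟩ := Finset.exists_mem_notMem_of_card_lt_card (s := {a, b, d, c}) (t := S)
    (Finset.card_le_four.trans_lt (by omega))
  simp only [Finset.mem_insert, Finset.mem_singleton, not_or] at hw'
  obtain ⟨wa, wb, wd, wc⟩ := hw'
  have n1 : a ∉ ({b, d, c, w} : Finset Z2) := by simp [ab, ad, ac, Ne.symm wa]
  have n2 : b ∉ ({d, c, w} : Finset Z2) := by simp [bd, bc, Ne.symm wb]
  have n3 : d ∉ ({c, w} : Finset Z2) := by simp [dc, Ne.symm wd]
  have eS : S = {a, b, d, c, w} := by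
    refine (Finset.eq_of_subset_of_card_le (by
      intro u hu
      simp only [Finset.mem_insert, Finset.mem_singleton] at hu
      rcases hu with rfl | rfl | rfl | rfl | rfl <;> assumption) ?_).symm
    rw [Finset.card_insert_of_notMem n1, Finset.card_insert_of_notMem n2,
      Finset.card_insert_of_notMem n3, Finset.card_pair (Ne.symm wc), hS]
  have ec : c = a + (b - a + (d - a)) := by linear_combination (exp := 1) e
  have T : Til 0 (b - a) (d - a) (b - a + (d - a)) (w - a) := by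
    by_cases h : det (b - a) (d - a) = 0
    · refine til_deg h (sub_ne_zero.2 ab.symm) (sub_ne_zero.2 ad.symm) (by simpa using bd)
        (fun h' => ac (by rw [ec, h', add_zero])) fun h' => nc ?_
      have key : ∀ u ∈ S, det (b - a) (u - a) = 0 := fun u hu => by
        simp only [eS, Finset.mem_insert, Finset.mem_singleton] at hu
        rcases hu with rfl | rfl | rfl | rfl | rfl
        · simp [det]
        · simp [det]; ring
        · exact h
        · rw [ec]
          simp only [det, Prod.fst_sub, Prod.snd_sub, Prod.fst_add, Prod.snd_add] at h ⊢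
          linarith
        · exact h'
      have k1 := key x hx
      have k2 := key y hy
      have k3 := key z hz
      by_contra hn
      have hy' : y - x ≠ 0 := fun h0 => hn (by simp [h0, det])
      have := det_ne (p := y - x) (x := b - a) (v := z - x) hy' (sub_ne_zero.2 ab.symm) (by
        simp only [det, Prod.fst_sub, Prod.snd_sub] at k1 k2 ⊢; linarith) hn
      apply this
      simp only [det, Prod.fst_sub, Prod.snd_sub] at k1 k3 ⊢; linarith
    · exact til_nondeg h (sub_ne_zero.2 wa) (by simpa using wb) (by simpa using wd)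
        fun h' => wc (by rw [ec, ← h']; ring)
  obtain ⟨A, B, h⟩ := T.shift a
  refine geom (A := A) (B := B) fun u => ?_
  rw [eS]
  simp only [Finset.sum_insert n1, Finset.sum_insert n2, Finset.sum_insert n3,
    Finset.sum_pair (Ne.symm wc)]
  have := h u
  simp only [add_zero, add_sub_cancel, ← ec] at this
  omega

end Pool.Agent.Lib.MP_e2a686_co
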