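import Pool.Agent.Lib.MP_e2a686_co.Schemes

namespace Pool.Agent.Lib.MP_e2a686_co

def det (x y : Z2) : ℤ := x.1 * y.2 - x.2 * y.1

lemma indep {x y : Z2} (h : det x y ≠ 0) {i j : ℤ} (e : i • x + j • y = 0) : i = 0 ∧ j = 0 := by
  have e1 := congrArg Prod.fst e
  have e2 := congrArg Prod.snd e
  simp only [Prod.fst_add, Prod.snd_add, Prod.smul_fst, Prod.smul_snd, smul_eq_mul, Prod.fst_zero,
    Prod.snd_zero] at e1 e2
  exact ⟨(mul_eq_zero.1 (show i * det x y = 0 by
      unfold det; linear_combination y.2 * e1 - y.1 * e2)).resolve_right h,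
    (mul_eq_zero.1 (show j * det x y = 0 by
      unfold det; linear_combination x.1 * e2 - x.2 * e1)).resolve_right h⟩

lemma free_fun {C : Type} [AddCommGroup C] {x y : Z2} (h : det x y ≠ 0) (a b : C) :
    ∃ f : Z2 → C, ∀ (z : Z2) (i j k : ℤ),
      f (z + (i • x + j • y + k • 0)) = f z + (i • a + j • b + k • 0) :=
  exists_fun x y 0 a b 0 fun i j k e => by
    obtain ⟨rfl, rfl⟩ := indep h (by simpa using e); simp

lemma tryA {p q v : Z2} (hpq : det p q ≠ 0) {i0 j0 k0 : ℤ} (r : i0 • p + j0 • q + k0 • v = 0)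
    (hk : (k0 : ZMod 2) = 1) (hj : (j0 : ZMod 2) = 0) (hv : det p v ≠ 0) : Til 0 p q (p + q) v := by
  obtain ⟨α, hα⟩ := free_fun hv (1 : ZMod 5) (-1)
  obtain ⟨β, hβ⟩ := exists_fun p q v (0 : ZMod 2) 1 0 fun i j k e => by
    have := (indep hpq (i := k0 * i - k * i0) (j := k0 * j - k * j0) (by
      linear_combination (exp := 1) k0 • e - k • r)).2
    have h := congrArg (Int.cast : ℤ → ZMod 2) this
    push_cast at h
    rw [hk, hj] at h
    simpa using h
  exact schemeA hα hβ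

lemma tryA' {p q v : Z2} (hpq : det p q ≠ 0) {i0 j0 k0 : ℤ} (r : i0 • p + j0 • q + k0 • v = 0)
    (hk : (k0 : ZMod 2) = 1) : Til 0 p q (p + q) v ∨ det p v = 0 ∨ det p (v - q) = 0 := by
  by_contra h
  rw [not_or, not_or] at h
  apply h.1
  have : ∀ t : ZMod 2, t = 0 ∨ t = 1 := by decide
  rcases this j0 with hj | hj
  · exact tryA hpq r hk hj h.2.1
  · refine (tryA (q := -q) (i0 := i0) (j0 := -(j0 + k0)) (k0 := k0) ?_ ?_ hk ?_ h.2.2).flip
    · intro e; apply hpq; simp only [det, Prod.fst_neg, Prod.snd_neg] at e ⊢; linarith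
    · rw [← r]; module
    · push_cast; rw [hj, hk]; decide

lemma til_nondeg {p q v : Z2} (hpq : det p q ≠ 0) (h0 : v ≠ 0) (h1 : v ≠ p) (h2 : v ≠ q)
    (h3 : v ≠ p + q) : Til 0 p q (p + q) v := by
  by_cases h : ∃ i j k : ℤ, i • p + j • q + k • v = 0 ∧ (k : ZMod 2) = 1
  · obtain ⟨i, j, k, r, hk⟩ := h
    have hqp : det q p ≠ 0 := fun e => hpq (by simp only [det] at e ⊢; linarith)
    rcases tryA' hpq r hk with h | a
    · exact h
    rcases tryA' hqp (i0 := j) (j0 := i) (by rw [← r]; abel) hk with h | b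
    · exact h.swap
    exfalso
    have key : ∀ w : Z2, det p w = 0 → det q w = 0 → w = 0 := fun w e1 e2 => by
      simp only [det] at e1 e2
      refine Prod.ext ((mul_eq_zero.1 (show w.1 * det p q = 0 by
        unfold det; linear_combination q.1 * e1 - p.1 * e2)).resolve_right hpq)
        ((mul_eq_zero.1 (show w.2 * det p q = 0 by
          unfold det; linear_combination q.2 * e1 - p.2 * e2)).resolve_right hpq)
    rcases a with a | a <;> rcases b with b | b
    · exact h0 (key _ a b)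
    · exact h1 (sub_eq_zero.1 (key _ (by simp only [det, Prod.fst_sub, Prod.snd_sub] at a ⊢; linarith) b))
    · exact h2 (sub_eq_zero.1 (key _ a (by simp only [det, Prod.fst_sub, Prod.snd_sub] at b ⊢; linarith)))
    · refine h3 (sub_eq_zero.1 (key _ ?_ ?_)) <;>
        simp only [det, Prod.fst_sub, Prod.snd_sub, Prod.fst_add, Prod.snd_add] at a b ⊢ <;> linarith
  · obtain ⟨α, hα⟩ := free_fun hpq (1 : ZMod 5) 2
    obtain ⟨β, hβ⟩ := exists_fun p q v (0 : ZMod 2) 0 1 fun i j k e => by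
      have : ∀ t : ZMod 2, t ≠ 1 → t = 0 := by decide
      simpa using this k fun hk => h ⟨i, j, k, e, hk⟩
    exact schemeB hα hβ

lemma alpha_fun {p q v : Z2} {P Q : ZMod 5} (hv : ∀ i j k : ℤ, i • p + j • q + k • v = 0 →
    k = 0 ∧ i * P + j * Q = 0) (l c : ZMod 5) : ∃ f : Z2 → ZMod 5, ∀ (z : Z2) (i j k : ℤ),
      f (z + (i • p + j • q + k • v)) = f z + (i • (l * P) + j • (l * Q) + k • c) :=
  exists_fun p q v _ _ c fun i j k e => by
    obtain ⟨rfl, h⟩ := hv i j k e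
    simp only [zsmul_eq_mul, Int.cast_zero, zero_mul, add_zero]
    linear_combination l * h

lemma til_C {p q v : Z2} {P : ZMod 5} (hP : P ≠ 0) (hv : ∀ i j k : ℤ, i • p + j • q + k • v = 0 →
    k = 0 ∧ i * P + j * P = 0) (hd : det (q - p) v ≠ 0) : Til 0 p q (p + q) v := by
  have : Fact (Nat.Prime 5) := ⟨by norm_num⟩
  obtain ⟨α, hα⟩ := alpha_fun hv P⁻¹ 0
  obtain ⟨β, hβ⟩ := free_fun hd (1 : ZMod 2) 1
  rw [inv_mul_cancel₀ hP] at hα
  exact schemeC hα hβ

lemma til_D {p q v : Z2} {P : ZMod 5} (hP : P ≠ 0) (hv : ∀ i j k : ℤ, i • p + j • q + k • v = 0 →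
    k = 0 ∧ i * P + j * 0 = 0) (hd : det q (v + p) ≠ 0) : Til 0 p q (p + q) v := by
  have : Fact (Nat.Prime 5) := ⟨by norm_num⟩
  obtain ⟨α, hα⟩ := alpha_fun hv P⁻¹ (-1)
  obtain ⟨β, hβ⟩ := free_fun hd (1 : ZMod 2) 0
  rw [inv_mul_cancel₀ hP, mul_zero] at hα
  exact schemeD hα hβ

lemma det_ne {p x v : Z2} (hp : p ≠ 0) (hx : x ≠ 0) (h : det p x = 0) (hv : det p v ≠ 0) :
    det x v ≠ 0 := by
  intro e
  simp only [det] at h e
  apply hx
  refine Prod.ext ((mul_eq_zero.1 (show x.1 * det p v = 0 by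
    unfold det; linear_combination p.1 * e + v.1 * h)).resolve_right hv)
    ((mul_eq_zero.1 (show x.2 * det p v = 0 by
      unfold det; linear_combination p.2 * e + v.2 * h)).resolve_right hv)

lemma til_deg {p q v : Z2} (hpq : det p q = 0) (hp : p ≠ 0) (hq : q ≠ 0) (h1 : p ≠ q)
    (h2 : p + q ≠ 0) (hv : det p v ≠ 0) : Til 0 p q (p + q) v := by
  have n0 : p.1 * p.1 + p.2 * p.2 ≠ 0 := fun e => hp (Prod.ext
    (by simp only [Prod.fst_zero]; nlinarith) (by simp only [Prod.snd_zero]; nlinarith))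
  obtain ⟨P, Q, hg, e1, e2⟩ := Int.exists_gcd_one (m := p.1 * p.1 + p.2 * p.2)
    (n := p.1 * q.1 + p.2 * q.2) (Int.gcd_pos_of_ne_zero_left _ n0)
  generalize ((p.1 * p.1 + p.2 * p.2).gcd (p.1 * q.1 + p.2 * q.2) : ℤ) = g at e1 e2
  have g0 : g ≠ 0 := by rintro rfl; exact n0 (by simpa using e1)
  have rel : ∀ i j k : ℤ, i • p + j • q + k • v = 0 →
      k = 0 ∧ (i * P + j * Q : ZMod 5) = 0 := fun i j k e => by
    have a := congrArg Prod.fst e
    have b := congrArg Prod.snd e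
    simp only [Prod.fst_add, Prod.snd_add, Prod.smul_fst, Prod.smul_snd, smul_eq_mul,
      Prod.fst_zero, Prod.snd_zero] at a b
    have hk : k = 0 := (mul_eq_zero.1 (show k * det p v = 0 by
      unfold det at *; linear_combination p.1 * b - p.2 * a - j * hpq)).resolve_right hv
    subst hk
    have : (i * P + j * Q) * g = 0 := by linear_combination p.1 * a + p.2 * b - i * e1 - j * e2
    have := congrArg (Int.cast : ℤ → ZMod 5) ((mul_eq_zero.1 this).resolve_right g0)
    exact ⟨rfl, by exact_mod_cast this⟩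
  have nz : ¬ ((P : ZMod 5) = 0 ∧ (Q : ZMod 5) = 0) := fun h => by
    have := Int.dvd_coe_gcd ((ZMod.intCast_zmod_eq_zero_iff_dvd P 5).1 h.1)
      ((ZMod.intCast_zmod_eq_zero_iff_dvd Q 5).1 h.2)
    rw [hg] at this
    norm_num at this
  generalize (P : ZMod 5) = P' at *
  generalize (Q : ZMod 5) = Q' at *
  have dd : ∀ {x w : Z2}, x ≠ 0 → det p x = 0 → det p w = det p v → det x w ≠ 0 :=
    fun hx a b => det_ne hp hx a (b ▸ hv)
  by_cases c1 : Q' = 0
  · subst c1
    exact til_D (fun h => nz ⟨h, rfl⟩) rel (dd hq hpq (by simp [det]; ring))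
  by_cases c2 : P' = 0
  · subst c2
    refine (til_D c1 (fun i j k e => ?_) (dd hp (by simp [det]; ring) ?_)).swap
    · simpa using rel j i k (by rw [← e]; abel)
    · simp only [det, Prod.fst_add, Prod.snd_add] at hpq ⊢; linarith
  by_cases c3 : P' = Q'
  · subst c3
    refine til_C c1 rel (dd (sub_ne_zero.2 h1.symm) ?_ rfl)
    simp only [det, Prod.fst_sub, Prod.snd_sub] at hpq ⊢; linarith
  by_cases c4 : P' = -Q'
  · refine (til_C c2 (fun i j k e => ?_) (dd (fun e => h2 ?_) ?_ ?_)).flip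
    · obtain ⟨rfl, b⟩ := rel i (-j - k) k (by rw [← e]; module)
      refine ⟨rfl, ?_⟩
      rw [c4] at b ⊢
      push_cast at b
      linear_combination b
    · linear_combination (exp := 1) -e
    · simp only [det, Prod.fst_sub, Prod.snd_sub, Prod.fst_neg, Prod.snd_neg] at hpq ⊢; linarith
    · simp only [det, Prod.fst_sub, Prod.snd_sub] at hpq ⊢; linarith
  obtain ⟨α, hα⟩ := alpha_fun rel 1 (3 * (P' + Q'))
  simp only [one_mul] at hα
  exact schemeE c2 c1 c3 c4 hα

end Pool.Agent.Lib.MP_e2a686_co
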