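import Mathlib

namespace Pool.Agent.Lib.MP_e2a686_co

abbrev Z2 := ℤ × ℤ

/-- Every cell is covered exactly once by translates of `T` (anchors `A`) and of `-T`
(anchors `B`), where `T = {t0, …, t4}`. -/
def Til (t0 t1 t2 t3 t4 : Z2) : Prop :=
  ∃ A B : Z2 → ℕ, ∀ z, A (z - t0) + A (z - t1) + A (z - t2) + A (z - t3) + A (z - t4) +
    (B (z + t0) + B (z + t1) + B (z + t2) + B (z + t3) + B (z + t4)) = 1

lemma Til.shift {t0 t1 t2 t3 t4 : Z2} (h : Til t0 t1 t2 t3 t4) (o : Z2) :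
    Til (o + t0) (o + t1) (o + t2) (o + t3) (o + t4) := by
  obtain ⟨A, B, h⟩ := h
  refine ⟨fun w => A (w + o), fun w => B (w - o), fun z => ?_⟩
  have e1 : ∀ t, z - (o + t) + o = z - t := fun t => by ring
  have e2 : ∀ t, z + (o + t) - o = z + t := fun t => by ring
  simp only [e1, e2]; exact h z

lemma Til.swap {p q v : Z2} (h : Til 0 q p (q + p) v) : Til 0 p q (p + q) v := by
  obtain ⟨A, B, h⟩ := h
  refine ⟨A, B, fun z => ?_⟩
  have := h z
  rw [add_comm q p] at this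
  omega

lemma Til.flip {p q v : Z2} (h : Til 0 p (-q) (p + -q) (v - q)) : Til 0 p q (p + q) v := by
  obtain ⟨A, B, h⟩ := h.shift q
  refine ⟨A, B, fun z => ?_⟩
  have := h z
  rw [add_zero, add_comm q p, add_neg_cancel, show q + (p + -q) = p by ring,
    show q + (v - q) = v by ring] at this
  omega

lemma exists_fun {C : Type} [AddCommGroup C] (x y w : Z2) (a b c : C)
    (h : ∀ i j k : ℤ, i • x + j • y + k • w = 0 → i • a + j • b + k • c = 0) :
    ∃ f : Z2 → C, ∀ (z : Z2) (i j k : ℤ),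
      f (z + (i • x + j • y + k • w)) = f z + (i • a + j • b + k • c) := by
  let φ : ℤ × ℤ × ℤ →+ Z2 :=
    { toFun := fun n => n.1 • x + n.2.1 • y + n.2.2 • w
      map_zero' := by simp
      map_add' := fun m n => by simp only [Prod.fst_add, Prod.snd_add, add_smul]; abel }
  have ex : ∀ z : Z2, ∃ n, φ n = -(QuotientAddGroup.mk z : Z2 ⧸ φ.range).out + z := fun z =>
    QuotientAddGroup.eq (s := φ.range).1 (Quotient.out_eq' _)
  choose n hn using ex
  refine ⟨fun z => (n z).1 • a + (n z).2.1 • b + (n z).2.2 • c, fun z i j k => ?_⟩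
  have e : (QuotientAddGroup.mk (z + (i • x + j • y + k • w)) : Z2 ⧸ φ.range) =
      QuotientAddGroup.mk z := QuotientAddGroup.mk_add_of_mem z ⟨(i, j, k), rfl⟩
  have h1 := hn (z + (i • x + j • y + k • w))
  rw [e, ← add_assoc (-_), ← hn z] at h1
  beta_reduce
  generalize n (z + (i • x + j • y + k • w)) = m at *
  have h2 := h (m.1 - (n z).1 - i) (m.2.1 - (n z).2.1 - j) (m.2.2 - (n z).2.2 - k) (by
    change m.1 • x + m.2.1 • y + m.2.2 • w =
      (n z).1 • x + (n z).2.1 • y + (n z).2.2 • w + _ at h1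
    simp only [sub_smul]
    linear_combination (exp := 1) h1)
  simp only [sub_smul] at h2
  rw [← sub_eq_zero, ← h2]; abel

def ind (a : ZMod 5) (b : ZMod 2) : ℕ := if a = 0 ∧ b = 0 then 1 else 0

section
variable {p q v : Z2} {α : Z2 → ZMod 5} {β : Z2 → ZMod 2}

lemma schemeA
    (hα : ∀ (z : Z2) (i j k : ℤ), α (z + (i • p + j • v + k • 0)) =
      α z + (i • 1 + j • (-1) + k • 0))
    (hβ : ∀ (z : Z2) (i j k : ℤ), β (z + (i • p + j • q + k • v)) =
      β z + (i • 0 + j • 1 + k • 0)) : Til 0 p q (p + q) v := by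
  refine ⟨fun w => ind (α w) (β w), fun w => ind (α (w - 3 • p - q)) (β (w - 3 • p - q)),
    fun z => ?_⟩
  have a0 : ∀ (w : Z2) (i j : ℤ), w = z + (i • p + j • v + (0 : ℤ) • 0) →
      α w = α z + (i - j) ∧ β w = β z := fun w i j e => ⟨by rw [e, hα]; simp [sub_eq_add_neg], by
        rw [show w = z + (i • p + (0 : ℤ) • q + j • v) by rw [e]; module, hβ]; simp⟩
  have a1 : ∀ (w : Z2) (i j : ℤ), w = z - q + (i • p + j • v + (0 : ℤ) • 0) →
      α w = α (z - q) + (i - j) ∧ β w = β z - 1 := fun w i j e =>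
      ⟨by rw [e, hα]; simp [sub_eq_add_neg], by
        rw [show w = z + (i • p + (-1 : ℤ) • q + j • v) by rw [e]; module, hβ]
        simp [sub_eq_add_neg]⟩
  simp only [a0 (z - 0) 0 0 (by module), a0 (z - p) (-1) 0 (by module),
    a1 (z - (p + q)) (-1) 0 (by module), (a1 (z - q) 0 0 (by module)).2,
    a0 (z - v) 0 (-1) (by module), a1 (z + 0 - 3 • p - q) (-3) 0 (by module),
    a1 (z + p - 3 • p - q) (-2) 0 (by module), a0 (z + q - 3 • p - q) (-3) 0 (by module),
    a0 (z + (p + q) - 3 • p - q) (-2) 0 (by module), a1 (z + v - 3 • p - q) (-3) 1 (by module)]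
  generalize α z = a, α (z - q) = a', β z = b
  revert a a' b; decide

lemma schemeB
    (hα : ∀ (z : Z2) (i j k : ℤ), α (z + (i • p + j • q + k • 0)) =
      α z + (i • 1 + j • 2 + k • 0))
    (hβ : ∀ (z : Z2) (i j k : ℤ), β (z + (i • p + j • q + k • v)) =
      β z + (i • 0 + j • 0 + k • 1)) : Til 0 p q (p + q) v := by
  refine ⟨fun w => ind (α w) (β w), fun w => ind (α (w - v - 2 • q)) (β (w - v - 2 • q)),
    fun z => ?_⟩
  have a0 : ∀ (w : Z2) (i j : ℤ), w = z + (i • p + j • q + (0 : ℤ) • 0) →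
      α w = α z + (i + j * 2) ∧ β w = β z := fun w i j e => ⟨by rw [e, hα]; simp, by
        rw [show w = z + (i • p + j • q + (0 : ℤ) • v) by rw [e]; module, hβ]; simp⟩
  have a1 : ∀ (w : Z2) (i j : ℤ), w = z - v + (i • p + j • q + (0 : ℤ) • 0) →
      α w = α (z - v) + (i + j * 2) ∧ β w = β z - 1 := fun w i j e =>
      ⟨by rw [e, hα]; simp, by
        rw [show w = z + (i • p + j • q + (-1 : ℤ) • v) by rw [e]; module, hβ]
        simp [sub_eq_add_neg]⟩
  simp only [a0 (z - 0) 0 0 (by module), a0 (z - p) (-1) 0 (by module),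
    a0 (z - (p + q)) (-1) (-1) (by module), a0 (z - q) 0 (-1) (by module),
    (a1 (z - v) 0 0 (by module)).2, a1 (z + 0 - v - 2 • q) 0 (-2) (by module),
    a1 (z + p - v - 2 • q) 1 (-2) (by module), a1 (z + q - v - 2 • q) 0 (-1) (by module),
    a1 (z + (p + q) - v - 2 • q) 1 (-1) (by module), a0 (z + v - v - 2 • q) 0 (-2) (by module)]
  generalize α z = a, α (z - v) = a', β z = b
  revert a a' b; decide

lemma schemeC
    (hα : ∀ (z : Z2) (i j k : ℤ), α (z + (i • p + j • q + k • v)) =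
      α z + (i • 1 + j • 1 + k • 0))
    (hβ : ∀ (z : Z2) (i j k : ℤ), β (z + (i • (q - p) + j • v + k • 0)) =
      β z + (i • 1 + j • 1 + k • 0)) : Til 0 p q (p + q) v := by
  refine ⟨fun w => ind (α w) (β w), fun w => ind (α (w - p - 3 • q)) (β (w - p - 3 • q)),
    fun z => ?_⟩
  have a0 : ∀ (w : Z2) (i j k : ℤ), w = z + (i • p + j • q + k • v) →
      α w = α z + (i + j) := fun w i j k e => by rw [e, hα]; simp
  have b0 : ∀ (w u : Z2) (i j : ℤ), w = u + (i • (q - p) + j • v + (0 : ℤ) • 0) →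
      β w = β u + (i + j) := fun w u i j e => by rw [e, hβ]; simp
  simp only [a0 (z - 0) 0 0 0 (by module), a0 (z - p) (-1) 0 0 (by module),
    a0 (z - (p + q)) (-1) (-1) 0 (by module), a0 (z - q) 0 (-1) 0 (by module),
    a0 (z - v) 0 0 (-1) (by module), a0 (z + 0 - p - 3 • q) (-1) (-3) 0 (by module),
    a0 (z + p - p - 3 • q) 0 (-3) 0 (by module), a0 (z + q - p - 3 • q) (-1) (-2) 0 (by module),
    a0 (z + (p + q) - p - 3 • q) 0 (-2) 0 (by module),
    a0 (z + v - p - 3 • q) (-1) (-3) 1 (by module),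
    b0 (z - v) (z - 0) 0 (-1) (by module), b0 (z - q) (z - p) (-1) 0 (by module),
    b0 (z + (p + q) - p - 3 • q) (z - (p + q)) (-1) 0 (by module),
    b0 (z + p - p - 3 • q) (z + q - p - 3 • q) (-1) 0 (by module),
    b0 (z + v - p - 3 • q) (z + 0 - p - 3 • q) 0 1 (by module)]
  generalize α z = a, β (z - 0) = b1, β (z - p) = b2, β (z - (p + q)) = b3,
    β (z + q - p - 3 • q) = b4, β (z + 0 - p - 3 • q) = b5
  revert a b1 b2 b3 b4 b5; decide

lemma schemeD
    (hα : ∀ (z : Z2) (i j k : ℤ), α (z + (i • p + j • q + k • v)) =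
      α z + (i • 1 + j • 0 + k • (-1)))
    (hβ : ∀ (z : Z2) (i j k : ℤ), β (z + (i • q + j • (v + p) + k • 0)) =
      β z + (i • 1 + j • 0 + k • 0)) : Til 0 p q (p + q) v := by
  refine ⟨fun w => ind (α w) (β w), fun w => ind (α (w + 2 • p - q)) (β (w + 2 • p - q)),
    fun z => ?_⟩
  have a0 : ∀ (w : Z2) (i j k : ℤ), w = z + (i • p + j • q + k • v) →
      α w = α z + (i - k) := fun w i j k e => by rw [e, hα]; simp [sub_eq_add_neg]
  have b0 : ∀ (w u : Z2) (i j : ℤ), w = u + (i • q + j • (v + p) + (0 : ℤ) • 0) →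
      β w = β u + i := fun w u i j e => by rw [e, hβ]; simp
  simp only [a0 (z - 0) 0 0 0 (by module), a0 (z - p) (-1) 0 0 (by module),
    a0 (z - (p + q)) (-1) (-1) 0 (by module), a0 (z - q) 0 (-1) 0 (by module),
    a0 (z - v) 0 0 (-1) (by module), a0 (z + 0 + 2 • p - q) 2 (-1) 0 (by module),
    a0 (z + p + 2 • p - q) 3 (-1) 0 (by module), a0 (z + q + 2 • p - q) 2 0 0 (by module),
    a0 (z + (p + q) + 2 • p - q) 3 0 0 (by module),
    a0 (z + v + 2 • p - q) 2 (-1) 1 (by module),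
    b0 (z - q) (z - 0) (-1) 0 (by module), b0 (z - (p + q)) (z - p) (-1) 0 (by module),
    b0 (z + 0 + 2 • p - q) (z + q + 2 • p - q) (-1) 0 (by module),
    b0 (z + p + 2 • p - q) (z + (p + q) + 2 • p - q) (-1) 0 (by module),
    b0 (z + v + 2 • p - q) (z - v) (-1) 2 (by module)]
  generalize α z = a, β (z - 0) = b1, β (z - p) = b2, β (z + q + 2 • p - q) = b3,
    β (z + (p + q) + 2 • p - q) = b4, β (z - v) = b5
  revert a b1 b2 b3 b4 b5; decide

lemma schemeE {P Q : ZMod 5} (h1 : P ≠ 0) (h2 : Q ≠ 0) (h3 : P ≠ Q) (h4 : P ≠ -Q)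
    (hα : ∀ (z : Z2) (i j k : ℤ), α (z + (i • p + j • q + k • v)) =
      α z + (i • P + j • Q + k • (3 * (P + Q)))) : Til 0 p q (p + q) v := by
  refine ⟨fun w => ind (α w) 0, fun _ => 0, fun z => ?_⟩
  have a0 : ∀ (w : Z2) (i j k : ℤ), w = z + (i • p + j • q + k • v) →
      α w = α z + (i * P + j * Q + k * (3 * (P + Q))) := fun w i j k e => by rw [e, hα]; simp
  simp only [a0 (z - 0) 0 0 0 (by module), a0 (z - p) (-1) 0 0 (by module),
    a0 (z - (p + q)) (-1) (-1) 0 (by module), a0 (z - q) 0 (-1) 0 (by module),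
    a0 (z - v) 0 0 (-1) (by module)]
  generalize α z = a
  clear a0 hα
  revert a P Q; decide

end

end Pool.Agent.Lib.MP_e2a686_co
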